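import Mathlib
import Pool.Agent.H15.NB1

set_option autoImplicit false

namespace Pool.Agent.Results.MP_37207a_lc.Exists

/-- A subfield `K` of `ℝ`, all of whose field orderings are archimedean, in which the set of
cubes `{x | ∃ y, x = y * y * y}` (defined without parameters in the language of rings) is not
Borel for the subspace topology of `K`. -/
theorem result : ∃ K : Subfield ℝ,
    (∀ o : LinearOrder K, @IsStrictOrderedRing K _ o.toPartialOrder →
      ∀ x : K, ∃ n : ℕ, o.lt x (n : K)) ∧
    ¬ @MeasurableSet K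
      (@borel K (TopologicalSpace.induced (fun x : K => (x : ℝ)) inferInstance))
      {x : K | ∃ y : K, x = y * y * y} := by
  obtain ⟨K, h1, h2⟩ := Pool.Agent.H15.NB1.main
  refine ⟨K, ?_, ?_⟩
  · intro o ho x
    obtain ⟨n, hn⟩ := exists_nat_gt (x : ℝ)
    have hpos : 0 < (n : ℝ) - x := sub_pos.2 hn
    have hs : √((n : ℝ) - x) * √((n : ℝ) - x) = (n : ℝ) - x := Real.mul_self_sqrt hpos.le
    have hm : √((n : ℝ) - x) ∈ K := h1 _ (by rw [hs]; exact K.sub_mem (natCast_mem K n) x.2)
    have e : (n : K) - x = ⟨_, hm⟩ * ⟨_, hm⟩ := Subtype.ext (by simpa using hs.symm)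
    have hne : (⟨_, hm⟩ : K) ≠ 0 := by
      intro h
      have h' : √((n : ℝ) - x) = 0 := congrArg Subtype.val h
      rw [h'] at hs; linarith
    have key : ∀ (F : Type) [Field F] [LinearOrder F] [IsStrictOrderedRing F] (a b y : F),
        a - b = y * y → y ≠ 0 → b < a := by
      intro F _ _ _ a b y h hy
      have := mul_self_pos.2 hy
      linarith
    exact ⟨n, @key K _ o ho _ _ _ e hne⟩
  · rw [borel_comap]
    rintro ⟨B, hB, hBe⟩
    refine h2 B (by rw [BorelSpace.measurable_eq (α := ℝ)]; exact hB) (fun x => ?_)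
    exact Set.ext_iff.1 hBe x

end Pool.Agent.Results.MP_37207a_lc.Exists
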